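import Pool.Agent.Y516.OJ.Final

set_option autoImplicit false

/-!
# 3SUM-Indexing: quadratic space, if only one of the cells read depends on both arrays

Two arrays `A`, `B` of `n` integers from `0, …, n ^ 2` are preprocessed. The memory has `s` cells of
`w` bits, which may be *arbitrary* functions of both arrays, and in addition an unlimited memory
with arbitrary functions of `A` alone and of `B` alone. On a query `z` one of the `s` joint cells is
read; its address may be an *arbitrary* function of `z`, of the first array and of public random
bits. Then the query is answered by an arbitrary communication protocol of at most `b` bits between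
the two arrays; for instance, `T` adaptive probes of cells of the one-sided memory are such a
protocol with `b = w T`. If the error probability is at most `1 / (2 * 10 ^ 6)`, then

  `n ^ 2 ≤ 10 ^ 20 * (b + l) ^ 2 * w ^ 3 * s`, where `l = ⌈2 log₂ n⌉`,

and `l = 0` suffices if the address is a function of `z` and the random bits only. So
polylogarithmic query time needs space `Ω~(n ^ 2)` in this model. Without the joint cell there is no
structure with `b < c n` at all, and one joint cell suffices if `s = O(n ^ 2)`.

Proof. By a coding of the pairs (element, set), the structure decides the disjointness of the set
`i` of a family `X` and of the set `j` of a family `Y`, for all `k ^ 2` pairs `(i, j)`, where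
`k = n / ((b + l) w)` up to a constant; the elements of the universe, `Θ((b + l) ^ 2 w ^ 2)` in
number, are independently in every set with probability `α = Θ(1 / ((b + l) w))`. For given `X`
nearly all pairs `(i, j)` can be put into disjoint groups of `m = 4000 w` pairs such that the pairs
of a group read the same cell, if `k ^ 2 > 40000 w s`. A group is an arbitrary bipartite graph, so
its `m` instances are not independent. We guess the content of the cell. For fixed protocols and a
fixed group `D` the probability that `D` is a group of `X` and that nearly all answers on `D` are
right is small: this is a direct product theorem for disjointness on overlapping pairs, on an event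
of one side. The sum over all possible groups costs no more than `(k ^ 2) ^ m` additional leaves of
the protocols. The direct product theorem follows from the inequality
`E [f g 1(no pair in S intersects)] ≤ (1 - α ^ 2 |S| / 40) ^ u ‖f‖_p ‖g‖_p`, `p = 1 + 2 m α`, for
functions `f` of `X` and `g` of `Y`, which tensorises; for one element of the universe it is proved
by an improved Jensen inequality on the events that this element belongs to exactly one of the
sets concerned.
-/

namespace Pool.Agent.Results.MP_e016b3_lc.AdaptiveJointProbe

open Pool.Agent.Y516.OJ

/-- If a random data structure with `s` joint cells of `w` bits, one joint probe (the address is a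
function of the query and of the first array) and protocols of `b` bits solves 3SUM-Indexing on
arrays of `n` numbers at most `n ^ 2`, then `n ^ 2 ≤ 10 ^ 20 * (b + l) ^ 2 * w ^ 3 * s`, if
`n ^ 2 ≤ 2 ^ l` or if the addresses do not depend on the array. -/
theorem result (n w b l s : ℕ) (hw : 1 ≤ w) (hb : 1 ≤ b) (Ω : Type) [Fintype Ω] (p : Ω → ℝ)
    (D : Ω → SumADS n w s)
    (hl : n ^ 2 ≤ 2 ^ l ∨ ∀ ω z A A', (D ω).addr z A = (D ω).addr z A') (h : SolvesSumA b p D) :
    n ^ 2 ≤ 10 ^ 20 * (b + l) ^ 2 * w ^ 3 * s :=
  sum_ad coreThm adThm2 n w b l s hw hb Ω p D hl h

end Pool.Agent.Results.MP_e016b3_lc.AdaptiveJointProbe
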